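import Pool.Agent.Helper53.PT.Fin5
import Pool.Agent.Helper63.TH.Thr

set_option autoImplicit false

namespace Pool.Agent.Results.MP_705522_gt.MinimalProjections

open MeasureTheory

/-- The closed unit ball `B_p^n` of `ℓ_p^n`, as a subset of Euclidean space `ℝⁿ`. -/
def ball (p : ℝ) (n : ℕ) : Set (EuclideanSpace ℝ (Fin n)) := {x | ∑ i, |x i| ^ p ≤ 1}

/-- The hyperplane `u^⊥`. -/
noncomputable def hyp {n : ℕ} (u : EuclideanSpace ℝ (Fin n)) :
    Submodule ℝ (EuclideanSpace ℝ (Fin n)) := (ℝ ∙ u)ᗮ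

/-- The orthogonal projection of `B_p^n` onto `u^⊥`: the set of `y ∈ u^⊥` such that the line
`y + ℝ u` meets `B_p^n`. -/
def shadow (p : ℝ) {n : ℕ} (u : EuclideanSpace ℝ (Fin n)) : Set (hyp u) :=
  {y | ∃ s : ℝ, y.1 + s • u ∈ ball p n}

/-- `(n-1)`-dimensional Lebesgue measure on the Euclidean space `u^⊥`. -/
noncomputable def hypVol {n : ℕ} (u : EuclideanSpace ℝ (Fin n)) : Measure (hyp u) := volume

/-- The `(n-1)`-dimensional volume of the orthogonal projection of `B_p^n` onto `u^⊥`. -/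
noncomputable def projVol (p : ℝ) {n : ℕ} (u : EuclideanSpace ℝ (Fin n)) : ENNReal :=
  hypVol u (shadow p u)

/-- `(n-1)`-dimensional volume of the ball `B_p^(n-1)`. -/
noncomputable def ballVol (p : ℝ) (n : ℕ) : ENNReal :=
  (volume : Measure (EuclideanSpace ℝ (Fin (n - 1)))) (ball p (n - 1))

/-- Two different coordinates of `u` have absolute value `1/√2`. -/
def IsPairDiagonal {n : ℕ} (u : EuclideanSpace ℝ (Fin n)) : Prop :=
  ∃ i j, i ≠ j ∧ |u i| = 1 / √2 ∧ |u j| = 1 / √2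

/-- All coordinates of `u` have absolute value `1/√n`. -/
def IsMainDiagonal {n : ℕ} (u : EuclideanSpace ℝ (Fin n)) : Prop :=
  ∀ i, |u i| = 1 / √(n : ℝ)

/-- `u` is a unit vector at which the volume of the projection onto `u^⊥` is minimal. -/
def IsMinimal (p : ℝ) {n : ℕ} (u : EuclideanSpace ℝ (Fin n)) : Prop :=
  ‖u‖ = 1 ∧ ∀ v : EuclideanSpace ℝ (Fin n), ‖v‖ = 1 → projVol p u ≤ projVol p v

/-- `E cos(sW)` for the random variable `W > 0` with density proportional to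
`w^(q-2) exp(-w^q)`, where `q = p/(p-1)`. -/
noncomputable def cosT (p s : ℝ) : ℝ :=
  (∫ w in Set.Ioi (0 : ℝ), Real.cos (s * w) * (w ^ (p / (p - 1) - 2) * Real.exp (-w ^ (p / (p - 1))))) /
    ∫ w in Set.Ioi (0 : ℝ), w ^ (p / (p - 1) - 2) * Real.exp (-w ^ (p / (p - 1)))

/-- The value of `vol(B_p^n | u^⊥)/vol(B_p^(n-1))` for the directions `u = (± e_i ± e_j)/√2`. -/
noncomputable def pairRatio (p : ℝ) : ℝ := (2 : ℝ) ^ (1 / 2 - 1 / p)

/-- The value of `vol(B_p^n | u^⊥)/vol(B_p^(n-1))` for the directions `u = (± 1, …, ± 1)/√n`. -/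
noncomputable def mainRatio (p : ℝ) (n : ℕ) : ℝ :=
  2 * Real.Gamma (1 / p) / (Real.pi * √(n : ℝ)) *
    ∫ s in Set.Ioi (0 : ℝ), (1 - cosT p s ^ n) / s ^ 2

lemma shadow_eq (p : ℝ) {n : ℕ} (u : EuclideanSpace ℝ (Fin n)) :
    shadow p u = (ℝ ∙ u)ᗮ.orthogonalProjectionOnto '' Pool.Agent.Helper7.Proj.Bp p n := by
  ext y
  constructor
  · rintro ⟨s, hs⟩
    refine ⟨y.1 + s • u, hs, ?_⟩
    rw [map_add]
    have h1 : (ℝ ∙ u)ᗮ.orthogonalProjectionOnto (s • u) = 0 := by
      rw [Submodule.orthogonalProjectionOnto_eq_zero_iff]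
      rw [Submodule.orthogonal_orthogonal]
      exact Submodule.smul_mem _ _ (Submodule.mem_span_singleton_self u)
    have h2 : (ℝ ∙ u)ᗮ.orthogonalProjectionOnto (y.1) = y :=
      Submodule.orthogonalProjectionOnto_mem_subspace_eq_self y
    rw [h1, add_zero]
    exact h2
  · rintro ⟨x, hx, rfl⟩
    obtain ⟨s, hs⟩ := Submodule.mem_span_singleton.1 ((ℝ ∙ u).starProjection_apply_mem x)
    refine ⟨s, ?_⟩
    have : ((ℝ ∙ u)ᗮ.orthogonalProjectionOnto x : EuclideanSpace ℝ (Fin n)) + s • u = x := by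
      rw [hs, Submodule.orthogonalProjectionOnto_orthogonal]
      simp
    show ((ℝ ∙ u)ᗮ.orthogonalProjectionOnto x : EuclideanSpace ℝ (Fin n)) + s • u ∈ ball p n
    rw [this]
    exact hx

lemma projVol_eq {p : ℝ} (hp : 0 < p) {n : ℕ} (u : EuclideanSpace ℝ (Fin n)) :
    projVol p u = ENNReal.ofReal (Pool.Agent.Helper7.Proj.projVol p n u) := by
  have h : projVol p u = (volume : Measure (ℝ ∙ u)ᗮ)
      ((ℝ ∙ u)ᗮ.orthogonalProjectionOnto '' Pool.Agent.Helper7.Proj.Bp p n) := by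
    rw [← shadow_eq]
    rfl
  rw [h]
  unfold Pool.Agent.Helper7.Proj.projVol Measure.real
  rw [ENNReal.ofReal_toReal (Pool.Agent.Helper28.NO.proj_finite hp n u)]

lemma mainRatio_eq (p : ℝ) (n : ℕ) : mainRatio p n = Pool.Agent.Helper53.PT.JJ p n := rfl

/-- Minimum and minimisers in terms of the two ratios. -/
lemma main_part : ∀ p : ℝ, 1 < p → p < 2 → ∀ n : ℕ, 2 ≤ n →
    IsLeast {v : ENNReal | ∃ u : EuclideanSpace ℝ (Fin n), ‖u‖ = 1 ∧ projVol p u = v}
      (ENNReal.ofReal (min (pairRatio p) (mainRatio p n)) * ballVol p n) ∧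
    ∀ u : EuclideanSpace ℝ (Fin n), IsMinimal p u ↔ ‖u‖ = 1 ∧
      ((IsPairDiagonal u ∧ pairRatio p ≤ mainRatio p n) ∨
        (IsMainDiagonal u ∧ mainRatio p n ≤ pairRatio p)) := by
  intro p hp hp2 n hn
  obtain ⟨m, rfl⟩ : ∃ m, n = m + 1 := ⟨n - 1, by omega⟩
  have hp0 : 0 < p := by linarith
  obtain ⟨⟨w, hw, ew⟩, key⟩ := Pool.Agent.Helper53.PT.full Pool.Agent.Helper53.PT.gt_all hp hp2
    (n := m) (by omega)
  have hV := Pool.Agent.Helper53.PT.V_pos hp m
  set V := (volume : Measure (EuclideanSpace ℝ (Fin m))).real (Pool.Agent.Helper7.Proj.Bp p m) with hVd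
  have hBV : ballVol p (m + 1) = ENNReal.ofReal V := by
    rw [hVd, Measure.real, ENNReal.ofReal_toReal
      ((Pool.Agent.Helper28.NO.Bp_compact hp0 m).measure_lt_top).ne]
    rfl
  have hpr : pairRatio p = (2 : ℝ) ^ (1 / 2 - 1 / p) := rfl
  have hc0 : 0 < pairRatio p := by rw [hpr]; positivity
  have e1 : ENNReal.ofReal (min (pairRatio p) (mainRatio p (m + 1))) * ballVol p (m + 1) =
      ENNReal.ofReal (V * min (pairRatio p) (mainRatio p (m + 1))) := by
    rw [hBV, mul_comm, ENNReal.ofReal_mul hV.le]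
  have e2 : ∀ u : EuclideanSpace ℝ (Fin (m + 1)),
      0 ≤ Pool.Agent.Helper7.Proj.projVol p (m + 1) u := fun u => measureReal_nonneg
  have hmin : ∀ u : EuclideanSpace ℝ (Fin (m + 1)), IsMinimal p u ↔ ‖u‖ = 1 ∧
      Pool.Agent.Helper7.Proj.projVol p (m + 1) u = V * min (pairRatio p) (mainRatio p (m + 1)) := by
    intro u
    constructor
    · rintro ⟨hu, h⟩
      refine ⟨hu, le_antisymm ?_ (key u hu).1⟩
      have h1 := h w hw
      rw [projVol_eq hp0, projVol_eq hp0, ENNReal.ofReal_le_ofReal_iff (e2 w), ew] at h1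
      exact h1
    · rintro ⟨hu, h⟩
      refine ⟨hu, fun v hv => ?_⟩
      rw [projVol_eq hp0, projVol_eq hp0, h]
      exact ENNReal.ofReal_le_ofReal (key v hv).1
  refine ⟨⟨⟨w, hw, ?_⟩, ?_⟩, fun u => ?_⟩
  · rw [projVol_eq hp0, e1, ew]
    rfl
  · rintro _ ⟨u, hu, rfl⟩
    rw [projVol_eq hp0, e1]
    exact ENNReal.ofReal_le_ofReal (key u hu).1
  · rw [hmin]
    refine and_congr_right fun hu => ?_
    exact (key u hu).2

/-- The minimal hyperplane projections of `B_p^n` for all `1 < p < 2` and `n ≥ 2`.  There are critical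
exponents `2 = q 2 > q 3 > q 4 > … → 4/3` such that for every `n ≥ 2` and `1 < p < 2`: if `p < q n` then
the minimisers are exactly the directions `(± e_i ± e_j)/√2` and the minimum is `pairRatio p` times the
volume of `B_p^(n-1)`; if `p > q n` then the minimisers are exactly the main diagonals and the minimum is
`mainRatio p n` times the volume of `B_p^(n-1)`; if `p = q n` then the minimisers are exactly the vectors
of both kinds (and both formulas hold).  For `n ≥ 3`, `q n` is the only zero of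
`mainRatio p n - pairRatio p` in `(1,2)`, and this difference is positive for `p < q n` and negative for
`p > q n`. -/
theorem result : ∃ q : ℕ → ℝ, q 2 = 2 ∧ (∀ n : ℕ, 2 ≤ n → 4 / 3 < q (n + 1) ∧ q (n + 1) < q n) ∧
    Filter.Tendsto q Filter.atTop (nhds (4 / 3)) ∧
    ∀ p : ℝ, 1 < p → p < 2 → ∀ n : ℕ, 2 ≤ n →
      (p ≤ q n → IsLeast {v : ENNReal | ∃ u : EuclideanSpace ℝ (Fin n), ‖u‖ = 1 ∧ projVol p u = v}
        (ENNReal.ofReal (pairRatio p) * ballVol p n)) ∧
      (q n ≤ p → IsLeast {v : ENNReal | ∃ u : EuclideanSpace ℝ (Fin n), ‖u‖ = 1 ∧ projVol p u = v}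
        (ENNReal.ofReal (mainRatio p n) * ballVol p n)) ∧
      (∀ u : EuclideanSpace ℝ (Fin n), IsMinimal p u ↔
        ‖u‖ = 1 ∧ ((IsPairDiagonal u ∧ p ≤ q n) ∨ (IsMainDiagonal u ∧ q n ≤ p))) ∧
      (3 ≤ n → (pairRatio p < mainRatio p n ↔ p < q n) ∧ (mainRatio p n < pairRatio p ↔ q n < p)) ∧
      ballVol p n = ENNReal.ofReal ((2 * Real.Gamma (1 / p + 1)) ^ (n - 1) /
        Real.Gamma (((n - 1 : ℕ) : ℝ) / p + 1)) := by
  obtain ⟨q, h1, h2, h3⟩ := Pool.Agent.Helper63.TH.thrP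
  have key : ∀ p : ℝ, 1 < p → p < 2 → ∀ n : ℕ, 3 ≤ n →
      (pairRatio p < mainRatio p n ↔ p < q n) ∧ (mainRatio p n < pairRatio p ↔ q n < p) := by
    intro p hp hp2 n hn
    obtain ⟨a1, a2, a3, a4, a5⟩ := h1 n hn
    rcases lt_trichotomy p (q n) with h | h | h
    · have b : pairRatio p < mainRatio p n := a3 p hp h
      exact ⟨⟨fun _ => h, fun _ => b⟩, ⟨fun c => absurd c b.asymm, fun c => absurd c h.asymm⟩⟩
    · have b : pairRatio p = mainRatio p n := by rw [h]; exact a4.symm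
      exact ⟨⟨fun c => absurd b c.ne, fun c => absurd h c.ne⟩,
        ⟨fun c => absurd b c.ne', fun c => absurd h c.ne'⟩⟩
    · have b : mainRatio p n < pairRatio p := a5 p h hp2
      exact ⟨⟨fun c => absurd c b.asymm, fun c => absurd c h.asymm⟩, ⟨fun _ => h, fun _ => b⟩⟩
  refine ⟨fun n => if n ≤ 2 then 2 else q n, by simp, fun n hn => ?_, ?_, fun p hp hp2 n hn => ?_⟩
  · beta_reduce
    rw [if_neg (by omega : ¬ n + 1 ≤ 2)]
    rcases hn.eq_or_lt with rfl | hn
    · rw [if_pos le_rfl]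
      exact ⟨(h1 3 le_rfl).1, (h1 3 le_rfl).2.1⟩
    · rw [if_neg (by omega : ¬ n ≤ 2)]
      exact ⟨(h1 (n + 1) (by omega)).1, h2 n (n + 1) hn (by omega)⟩
  · refine h3.congr' ?_
    filter_upwards [Filter.eventually_gt_atTop 2] with n hn
    rw [if_neg (by omega)]
  · beta_reduce
    obtain ⟨m1, m2⟩ := main_part p hp hp2 n hn
    have hb : ballVol p n = ENNReal.ofReal ((2 * Real.Gamma (1 / p + 1)) ^ (n - 1) /
        Real.Gamma (((n - 1 : ℕ) : ℝ) / p + 1)) := by
      obtain ⟨m, rfl⟩ : ∃ m, n = m + 2 := ⟨n - 2, by omega⟩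
      exact Pool.Agent.Helper53.PT.vol_ball hp.le m
    rcases hn.eq_or_lt with rfl | hn
    · have e : mainRatio p 2 = pairRatio p := Pool.Agent.Helper53.PT.eq_two hp hp2
      rw [if_pos le_rfl]
      refine ⟨fun _ => ?_, fun h => ?_, fun u => ?_, fun h => ?_, hb⟩
      · rw [e, min_self] at m1
        exact m1
      · exact absurd h (not_le.2 hp2)
      · rw [m2 u]
        refine and_congr_right fun hu => ?_
        constructor
        · rintro (⟨h, _⟩ | ⟨h, _⟩)
          · exact Or.inl ⟨h, hp2.le⟩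
          · refine Or.inl ⟨⟨0, 1, by decide, ?_, ?_⟩, hp2.le⟩
            · rw [h 0]; norm_num
            · rw [h 1]; norm_num
        · rintro (⟨h, _⟩ | ⟨_, h⟩)
          · exact Or.inl ⟨h, e.ge⟩
          · exact absurd h (not_le.2 hp2)
      · omega
    · obtain ⟨k1, k2⟩ := key p hp hp2 n hn
      rw [if_neg (by omega : ¬ n ≤ 2)]
      have l1 : p ≤ q n ↔ pairRatio p ≤ mainRatio p n := by rw [← not_lt, ← k2, not_lt]
      have l2 : q n ≤ p ↔ mainRatio p n ≤ pairRatio p := by rw [← not_lt, ← k1, not_lt]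
      refine ⟨fun h => ?_, fun h => ?_, fun u => ?_, fun _ => ⟨k1, k2⟩, hb⟩
      · rw [min_eq_left (l1.1 h)] at m1
        exact m1
      · rw [min_eq_right (l2.1 h)] at m1
        exact m1
      · rw [l1, l2]
        exact m2 u

end Pool.Agent.Results.MP_705522_gt.MinimalProjections
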